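import Mathlib
import Pool.Agent.H66.Stable

set_option autoImplicit false

open Pool.Agent.H66.Stable MvPolynomial

universe u

/-- For `n ≥ 3` some endomorphism of `K[x_1, ..., x_n]` has a stable image that is not a retract. -/
theorem Pool.Agent.Results.MP_0f9f23_al.NotRetract.result
    (K : Type u) [Field K] (n : ℕ) (hn : 3 ≤ n) :
    ∃ φ : MvPolynomial (Fin n) K →ₐ[K] MvPolynomial (Fin n) K,
      ¬ ∃ π : MvPolynomial (Fin n) K →ₐ[K]
          (⨅ k : ℕ, (φ ^ (k + 1)).range : Subalgebra K (MvPolynomial (Fin n) K)),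
        ∀ r : (⨅ k : ℕ, (φ ^ (k + 1)).range : Subalgebra K (MvPolynomial (Fin n) K)),
          π r = r := by
  obtain ⟨n, rfl⟩ := Nat.exists_eq_add_of_le' hn
  refine ⟨phi K n, ?_⟩
  rintro ⟨π, hπ⟩
  have key : ∀ g, phi K n g = g → (π g : P K n) = g := fun g hg =>
    congrArg Subtype.val (hπ ⟨g, Algebra.mem_iInf.2 fun k => fixed K n g hg _⟩)
  refine main K n ((Subalgebra.val _).comp π)
    (fun g => D_eq_zero K n _ (Algebra.mem_iInf.1 (π g).2)) (key _ (phi0 K n)) (key _ ?_)
  rw [map_sub, map_mul, map_pow, phi0, phi1, phi2]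
  ring
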